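import Pool.Agent.Lib.helper29.KyF

open Pool.Agent.Lib.H29.KyF

namespace Pool.Agent.Results.MP_03f9bf_an.Fails

theorem result : ∃ (n : ℕ) (A B : Matrix (Fin n) (Fin n) ℂ) (k : ℕ), A.IsHermitian ∧
    B.IsHermitian ∧ 1 ≤ k ∧ k ≤ n ∧ 2 * sv A 0 * kyFan k (RR B) < kyFan k (LL A B) := by
  refine ⟨20, A0, B0, 20, A0_h, B0_h, by norm_num, le_rfl, ?_⟩
  rw [sv_one A0 A0_sq (by norm_num), R0]
  have := L0
  linarith

end Pool.Agent.Results.MP_03f9bf_an.Fails
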